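import Pool.Agent.V1164.QD.Phi

set_option autoImplicit false

/-!
# Smooth quasi-diagonals which are not elliptic curves exist

`E = ℂ / Λ` is an arbitrary complex elliptic curve, `℘` its Weierstrass function and `a = ℘(w)` for
a point `w` with `2 w ≠ 0`. For general `k` the curve `S = {(℘(x) - a) (℘(y) - a) = k}` in `E²` is
smooth and irreducible, and not elliptic. Since `℘(x) - a` and `k / (℘(y) - a)` are the same map
`S → ℙ¹`, the pull backs of `L = O(2 • [0]) = (℘ - a)^* O(1)` by the two projections are isomorphic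
on `S`.
-/

namespace Pool.Agent.Results.MP_d64a6e_ag.SmoothNonElliptic

open Pool.Agent.V1164.QD

/-- For every complex elliptic curve `E = ℂ / Λ` there are an ample line bundle `L` on `E` and a
quasi-diagonal `S` over `(E, L)` in `E²` which is smooth and is not an elliptic curve. -/
theorem result (P : PeriodPair) : ∃ (L : LineBundle P) (S : Set (Fin 2 → Ell P)),
    L.IsAmple ∧ IsQuasiDiagonal L S ∧ (∀ p ∈ S, IsSmoothCurveAt S p) ∧ ¬ IsElliptic S := by
  obtain ⟨k, hk⟩ := exists_goodK P
  exact ⟨(TPole P).bundle, SPhi P k, (TPole P).isAmple_bundle, isQuasiDiagonal_SPhi hk,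
    smooth_SPhi hk, not_elliptic_SPhi hk⟩

end Pool.Agent.Results.MP_d64a6e_ag.SmoothNonElliptic
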